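import Pool.Agent.WInv.Main

/-!
# MP_2fcb4d_al : a field `K` with `w(K) ≥ 3` and `I^4_tors K = 0`

The field is `K = R(p, x, z)`, `R` the field of hyperreal numbers, and the minimal weakly
isotropic form of dimension three is `⟨1, -a z, -b (1 - z)⟩` with `a = x² + p² + 1` and
`b = (p² + δ²)² x⁴ + (δ² p² + 1)² (p² + σ²) (σ² p² + 1)`, `σ` and `δ / σ` positive infinitesimals.
-/

set_option autoImplicit false

namespace Pool.Agent.Results.MP_2fcb4d_al.WInvariant

section Forms

variable {K : Type*} [Field K] {V : Type*} [AddCommGroup V] [Module K V]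

/-- Regular: the (polar) bilinear form associated with `Q` is nondegenerate. -/
def Regular (Q : QuadraticForm K V) : Prop :=
  ∀ v : V, (∀ w : V, QuadraticMap.polar Q v w = 0) → v = 0

/-- Weakly isotropic: for some `n ≥ 1` the orthogonal sum `n × Q` of `n` copies of `Q` is
isotropic. -/
def WeaklyIsotropic (Q : QuadraticForm K V) : Prop :=
  ∃ n : ℕ, 1 ≤ n ∧ ¬ (QuadraticMap.pi (fun _ : Fin n => Q)).Anisotropic

/-- Minimal weakly isotropic: regular, weakly isotropic, and no proper (regular) subform is weakly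
isotropic. -/
def MinimalWeaklyIsotropic (Q : QuadraticForm K V) : Prop :=
  Regular Q ∧ WeaklyIsotropic Q ∧
    ∀ W : Submodule K V, W ≠ ⊤ → Regular (Q.comp W.subtype) → ¬ WeaklyIsotropic (Q.comp W.subtype)

end Forms

/-- The invariant `w(K)`: the supremum of the dimensions of the minimal weakly isotropic
forms over `K`. -/
noncomputable def w (K : Type*) [Field K] : ℕ∞ :=
  ⨆ (n : ℕ) (_ : ∃ Q : QuadraticForm K (Fin n → K), MinimalWeaklyIsotropic Q), (n : ℕ∞)

section Witt

variable (K : Type*) [Field K]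

/-- The diagonal form `⟨a₁, …, aₙ⟩` is hyperbolic: it has a totally isotropic subspace of half
its dimension. -/
def Hyperbolic {n : ℕ} (a : Fin n → Kˣ) : Prop :=
  ∃ U : Submodule K (Fin n → K), 2 * Module.finrank K U = n ∧
    ∀ x ∈ U, ∑ i, (a i : K) * x i ^ 2 = 0

/-- The element `[a₁] + … + [aₙ]` of the group ring `ℤ[Kˣ]` given by the form `⟨a₁, …, aₙ⟩`. -/
noncomputable def element {n : ℕ} (a : Fin n → Kˣ) : MonoidAlgebra ℤ Kˣ :=
  ∑ i, MonoidAlgebra.of ℤ Kˣ (a i)

/-- The ideal of `ℤ[Kˣ]` generated by the hyperbolic forms. -/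
noncomputable def hyperbolicIdeal : Ideal (MonoidAlgebra ℤ Kˣ) :=
  Ideal.span {f | ∃ (n : ℕ) (a : Fin n → Kˣ), Hyperbolic K a ∧ f = element K a}

/-- The Witt ring `WK`: the group ring `ℤ[Kˣ]` (generated by the one-dimensional forms) modulo
the hyperbolic forms. -/
abbrev WittRing : Type _ := MonoidAlgebra ℤ Kˣ ⧸ hyperbolicIdeal K

/-- The fundamental ideal `IK` of the Witt ring, generated by the classes of the forms of even
dimension. -/
noncomputable def fundamentalIdeal : Ideal (WittRing K) :=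
  Ideal.span {x | ∃ (k : ℕ) (a : Fin (2 * k) → Kˣ),
    x = Ideal.Quotient.mk (hyperbolicIdeal K) (element K a)}

/-- `I^n_tors K = 0`: the ideal `I^n K` contains no nonzero element of finite additive order. -/
def TorsionFreeI (n : ℕ) : Prop :=
  ∀ x ∈ fundamentalIdeal K ^ n, ∀ m : ℕ, 0 < m → m • x = 0 → x = 0

end Witt

lemma hyperbolicIdeal_eq (K : Type*) [Field K] : hyperbolicIdeal K = WInv.hypIdeal K := by
  unfold hyperbolicIdeal WInv.hypIdeal
  congr 1
  ext f
  constructor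
  · rintro ⟨n, a, ⟨U, hU, hx⟩, hf⟩
    exact ⟨n, a, ⟨U, by rw [Fintype.card_fin]; exact hU, hx⟩, hf⟩
  · rintro ⟨n, a, ⟨U, hU, hx⟩, hf⟩
    exact ⟨n, a, ⟨U, by rw [Fintype.card_fin] at hU; exact hU, hx⟩, hf⟩

/-- auxiliary: the statement as a function of the ideal -/
def Aux (K : Type*) [Field K] (n : ℕ) (J : Ideal (MonoidAlgebra ℤ Kˣ)) : Prop :=
  ∀ x ∈ (Ideal.span {x | ∃ (k : ℕ) (a : Fin (2 * k) → Kˣ),
    x = Ideal.Quotient.mk J (∑ i, MonoidAlgebra.of ℤ Kˣ (a i))} : Ideal (MonoidAlgebra ℤ Kˣ ⧸ J)) ^ n,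
    ∀ m : ℕ, 0 < m → m • x = 0 → x = 0

/-- **There is a field `K` of characteristic `0` with `w(K) ≥ 3` and `I^4_tors K = 0`.** -/
theorem result : ∃ (K : Type) (_ : Field K), CharZero K ∧ 3 ≤ w K ∧ TorsionFreeI K 4 := by
  obtain ⟨K, _, h0, h3, h4⟩ := WInv.exists_field
  refine ⟨K, inferInstance, h0, h3, ?_⟩
  have h : Aux K 4 (WInv.hypIdeal K) := h4
  rw [← hyperbolicIdeal_eq] at h
  exact h

end Pool.Agent.Results.MP_2fcb4d_al.WInvariant
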